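import Pool.Agent.Helper30.UB.St

set_option autoImplicit false

open Polynomial

namespace Pool.Agent.Helper41.UB

open Polynomial Finset Pool.Agent.Helper15.FC Pool.Agent.Helper30.UB

open scoped Classical in
private lemma nf_mi {F : Type} [Field F] {f p : F[X]} (hp : p ∈ nf f) : p.Monic ∧ Irreducible p := by
  unfold nf at hp
  have h1 := UniqueFactorizationMonoid.irreducible_of_normalized_factor p hp
  have h2 := UniqueFactorizationMonoid.normalize_normalized_factor p hp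
  refine ⟨?_, h1⟩
  rw [← h2]
  exact Polynomial.monic_normalize h1.ne_zero

open scoped Classical in
private lemma nf_prod {F : Type} [Field F] {f : F[X]} (hf : f.Monic) : (nf f).prod = f := by
  unfold nf
  rw [UniqueFactorizationMonoid.prod_normalizedFactors_eq hf.ne_zero, hf.normalize_eq_self]

open scoped Classical in
private lemma nf_of {F : Type} [Field F] (M : Multiset F[X]) (h : ∀ p ∈ M, p.Monic ∧ Irreducible p) :
    nf M.prod = M := by
  unfold nf
  rw [UniqueFactorizationMonoid.normalizedFactors_prod_eq M (fun a ha => (h a ha).2)]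
  conv_rhs => rw [← Multiset.map_id M]
  exact Multiset.map_congr rfl (fun a ha => (h a ha).1.normalize_eq_self)

private lemma deg_prod {F : Type} [Field F] (M : Multiset F[X]) (h : ∀ p ∈ M, p.Monic ∧ Irreducible p) :
    M.prod.Monic ∧ M.prod.natDegree = (M.map natDegree).sum := by
  refine ⟨?_, Polynomial.natDegree_multiset_prod_of_monic M fun f hf => (h f hf).1⟩
  have := Polynomial.monic_multiset_prod_of_monic M (fun p => p) (fun p hp => (h p hp).1)
  simpa using this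

/-- the part of `f` with prime factors of degree in `(v, w]` -/
private lemma part_exists {F : Type} [Field F] {f : F[X]} (hf : f.Monic) (v w : ℝ) :
    ∃ s : F[X], s.Monic ∧ s ∣ f ∧ s.natDegree = DD v w f ∧
      ∀ p ∈ nf s, v < (p.natDegree : ℝ) ∧ (p.natDegree : ℝ) ≤ w := by
  unfold DD
  obtain ⟨M, hM⟩ : ∃ M, M = Multiset.filter
    (fun p : F[X] => v < (p.natDegree : ℝ) ∧ (p.natDegree : ℝ) ≤ w) (nf f) := ⟨_, rfl⟩
  have hle : M ≤ nf f := by rw [hM]; exact Multiset.filter_le _ _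
  have hmi : ∀ p ∈ M, p.Monic ∧ Irreducible p := fun p hp => nf_mi (Multiset.mem_of_le hle hp)
  obtain ⟨h1, h2⟩ := deg_prod M hmi
  refine ⟨M.prod, h1, ?_, ?_, ?_⟩
  · have := Multiset.prod_dvd_prod_of_le hle
    rwa [nf_prod hf] at this
  · rw [h2, hM]
  · intro p hp
    rw [nf_of M hmi, hM] at hp
    exact (Multiset.mem_filter.1 hp).2

private lemma map_pow {F : Type} [Field F] (c : ℝ) (M : Multiset F[X]) :
    (M.map fun p => c ^ p.natDegree).prod = c ^ (M.map natDegree).sum := by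
  induction M using Multiset.induction_on with
  | empty => simp
  | cons a M ih => rw [Multiset.map_cons, Multiset.prod_cons, ih, Multiset.map_cons,
      Multiset.sum_cons, pow_add]

private lemma nf_pow {F : Type} [Field F] (c : ℝ) {s : F[X]} (hs : s.Monic) :
    ((nf s).map fun p => c ^ p.natDegree).prod = c ^ s.natDegree := by
  rw [map_pow]
  have h := (deg_prod (nf s) fun p hp => nf_mi hp).2
  rw [nf_prod hs] at h
  rw [h]

private lemma card_dvd {F : Type} [Field F] [Fintype F] {n : ℕ} {s : F[X]} (hs : s.Monic)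
    (A : Finset F[X]) (hA : ∀ f ∈ A, f ∈ Mn F n ∧ s ∣ f) :
    A.card ≤ Fintype.card F ^ (n - s.natDegree) := by
  classical
  have hsub : A ⊆ (Mn F (n - s.natDegree)).image fun g => s * g := by
    intro f hf
    obtain ⟨h1, g, rfl⟩ := hA f hf
    obtain ⟨hm, hd⟩ := mem_Mn.1 h1
    have hg : g.Monic := hs.of_mul_monic_left hm
    refine Finset.mem_image.2 ⟨g, mem_Mn.2 ⟨hg, ?_⟩, rfl⟩
    rw [hs.natDegree_mul hg] at hd
    omega
  calc A.card ≤ ((Mn F (n - s.natDegree)).image fun g => s * g).card := Finset.card_le_card hsub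
    _ ≤ (Mn F (n - s.natDegree)).card := Finset.card_image_le
    _ = _ := card_Mn F _

private lemma geom (b : ℝ) (hb : 7 / 5 ≤ b) (m : ℕ) :
    ∑ d ∈ Finset.Icc 1 m, b ^ d ≤ 7 / 2 * b ^ m := by
  have h : ∀ m : ℕ, (b - 1) * ∑ d ∈ Finset.Icc 1 m, b ^ d ≤ b ^ (m + 1) := by
    intro m
    induction m with
    | zero => simp; linarith
    | succ m ih =>
      rw [Finset.sum_Icc_succ_top (by omega), mul_add]
      have : (b - 1) * b ^ (m + 1) = b ^ (m + 1 + 1) - b ^ (m + 1) := by ring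
      rw [this]
      linarith
  have h1 := h m
  have h2 : b ^ (m + 1) ≤ (b - 1) * (7 / 2 * b ^ m) := by
    have h3 : 0 < b ^ m := by positivity
    have : (b - 1) * (7 / 2 * b ^ m) - b ^ (m + 1) = (5 / 2 * b - 7 / 2) * b ^ m := by ring
    have h4 : 0 ≤ (5 / 2 * b - 7 / 2) * b ^ m := mul_nonneg (by linarith) h3.le
    linarith
  exact le_of_mul_le_mul_left (h1.trans h2) (by linarith)

theorem hSMO (hE : StEUP) (hI : StIRB) : StSMO := by
  intro F _ _ n hn
  classical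
  have hq2 : 2 ≤ Fintype.card F := Fintype.one_lt_card
  obtain ⟨q, hq⟩ : ∃ q : ℝ, q = qr F := ⟨_, rfl⟩
  have hq2' : (2 : ℝ) ≤ q := by rw [hq]; exact_mod_cast hq2
  have hq0 : 0 < q := by linarith
  have hlq : 0 < Real.log q := Real.log_pos (by linarith)
  have hn1 : (1 : ℝ) ≤ n := by exact_mod_cast hn
  obtain ⟨Z, hZ⟩ : ∃ Z : ℝ, Z = Zn F n := ⟨_, rfl⟩
  have hZ' : Z = Real.log n / Real.log q := by rw [hZ, hq]; rfl
  have hZ0 : 0 ≤ Z := by rw [hZ']; exact div_nonneg (Real.log_nonneg hn1) hlq.le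
  obtain ⟨m, hm⟩ : ∃ m : ℕ, m = ⌊Z⌋₊ := ⟨_, rfl⟩
  have hmZ : (m : ℝ) ≤ Z := by rw [hm]; exact Nat.floor_le hZ0
  have hqm : q ^ m ≤ n := by
    rw [← Real.log_le_log_iff (by positivity) (by linarith), Real.log_pow]
    rw [hZ', le_div_iff₀ hlq] at hmZ
    exact hmZ
  obtain ⟨b, hb⟩ : ∃ b : ℝ, b = √q := ⟨_, rfl⟩
  have hb2 : b ^ 2 = q := by rw [hb]; exact Real.sq_sqrt hq0.le
  have hb0 : 0 ≤ b := by rw [hb]; exact Real.sqrt_nonneg q
  have hb1 : 7 / 5 ≤ b := by nlinarith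
  have hbpos : 0 < b := by linarith
  have hbm : b ^ m ≤ √(n : ℝ) := by
    apply Real.le_sqrt_of_sq_le
    rw [← pow_mul, mul_comm, pow_mul, hb2]
    exact hqm
  obtain ⟨T, hT⟩ : ∃ T : Finset F[X], T =
    (Mn F n).filter (fun f => (n : ℝ) / 16 ≤ (DD 0 (Zn F n) f : ℝ)) := ⟨_, rfl⟩
  have hTm : ∀ f ∈ T, f ∈ Mn F n ∧ (n : ℝ) / 16 ≤ (DD 0 Z f : ℝ) := by
    intro f hf
    rw [hT, Finset.mem_filter, ← hZ] at hf
    exact hf
  have hex : ∀ f ∈ T, ∃ s : F[X], s.Monic ∧ s ∣ f ∧ s.natDegree = DD 0 Z f ∧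
      ∀ p ∈ nf s, (0 : ℝ) < (p.natDegree : ℝ) ∧ (p.natDegree : ℝ) ≤ Z := fun f hf =>
    part_exists (mem_Mn.1 (hTm f hf).1).1 0 Z
  choose! s hs1 hs2 hs3 hs4 using hex
  obtain ⟨Q, hQ⟩ : ∃ Q : Finset F[X], Q = T.image s := ⟨_, rfl⟩
  have hQm : ∀ P ∈ Q, P.Monic ∧ (∀ p ∈ nf P, (0 : ℝ) < (p.natDegree : ℝ) ∧ (p.natDegree : ℝ) ≤ Z) ∧
      (n : ℝ) / 16 ≤ (P.natDegree : ℝ) ∧ P.natDegree ≤ n := by
    intro P hP
    rw [hQ, Finset.mem_image] at hP
    obtain ⟨f, hf, rfl⟩ := hP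
    refine ⟨hs1 f hf, hs4 f hf, ?_, ?_⟩
    · rw [hs3 f hf]; exact (hTm f hf).2
    · obtain ⟨h1, h2⟩ := mem_Mn.1 (hTm f hf).1
      rw [← h2]
      exact Polynomial.natDegree_le_of_dvd (hs2 f hf) h1.ne_zero
  -- the prime factors
  obtain ⟨S, hS⟩ : ∃ S : Finset F[X], S = (Finset.Icc 1 m).biUnion fun d => Ir F d := ⟨_, rfl⟩
  have hSm : ∀ p ∈ S, p.Monic ∧ Irreducible p := by
    intro p hp
    rw [hS, Finset.mem_biUnion] at hp
    obtain ⟨d, -, hd⟩ := hp
    unfold Ir at hd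
    rw [Finset.mem_filter] at hd
    exact ⟨(mem_Mn.1 hd.1).1, hd.2⟩
  have hx : ∀ p ∈ S, p.Monic ∧ Irreducible p ∧ 0 ≤ (b⁻¹) ^ p.natDegree ∧
      (b⁻¹) ^ p.natDegree ≤ 3 / 4 := by
    intro p hp
    obtain ⟨h1, h2⟩ := hSm p hp
    refine ⟨h1, h2, by positivity, ?_⟩
    have h3 : 1 ≤ p.natDegree := h2.natDegree_pos
    have h4 : b⁻¹ ≤ 5 / 7 := by
      rw [inv_le_comm₀ hbpos (by norm_num)]
      norm_num
      exact hb1
    have h5 : 0 ≤ b⁻¹ := by positivity
    calc (b⁻¹) ^ p.natDegree ≤ (b⁻¹) ^ 1 := pow_le_pow_of_le_one h5 (by linarith) h3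
      _ ≤ 3 / 4 := by rw [pow_one]; linarith
  have hQS : ∀ P ∈ Q, P.Monic ∧ ∀ p ∈ nf P, p ∈ S := by
    intro P hP
    obtain ⟨h1, h2, -, -⟩ := hQm P hP
    refine ⟨h1, fun p hp => ?_⟩
    obtain ⟨h3, h4⟩ := h2 p hp
    obtain ⟨h5, h6⟩ := nf_mi hp
    rw [hS, Finset.mem_biUnion]
    refine ⟨p.natDegree, Finset.mem_Icc.2 ⟨h6.natDegree_pos, ?_⟩, ?_⟩
    · rw [hm]; exact Nat.le_floor h4
    · unfold Ir
      rw [Finset.mem_filter]
      exact ⟨mem_Mn.2 ⟨h5, rfl⟩, h6⟩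
  have hEu := hE F S (fun p => (b⁻¹) ^ p.natDegree) hx Q hQS
  have hsum : ∑ P ∈ Q, ((nf P).map fun p => (b⁻¹) ^ p.natDegree).prod =
      ∑ P ∈ Q, (b⁻¹) ^ P.natDegree :=
    Finset.sum_congr rfl fun P hP => nf_pow _ (hQm P hP).1
  rw [hsum] at hEu
  -- the product
  have hprod : ∏ p ∈ S, (1 + 4 * (b⁻¹) ^ p.natDegree) ≤ Real.exp (14 * √(n : ℝ)) := by
    have h1 : ∏ p ∈ S, (1 + 4 * (b⁻¹) ^ p.natDegree) ≤
        ∏ p ∈ S, Real.exp (4 * (b⁻¹) ^ p.natDegree) := by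
      refine Finset.prod_le_prod (fun p _ => by positivity) fun p _ => ?_
      have := Real.add_one_le_exp (4 * (b⁻¹) ^ p.natDegree)
      linarith
    rw [← Real.exp_sum, ← Finset.mul_sum] at h1
    refine h1.trans (Real.exp_le_exp.2 ?_)
    have h2 : ∑ p ∈ S, (b⁻¹) ^ p.natDegree ≤ ∑ d ∈ Finset.Icc 1 m, b ^ d := by
      rw [hS, Finset.sum_biUnion]
      · refine Finset.sum_le_sum fun d hd => ?_
        have hd1 := (Finset.mem_Icc.1 hd).1
        have e1 : ∑ p ∈ Ir F d, (b⁻¹) ^ p.natDegree = ((Ir F d).card : ℝ) * (b⁻¹) ^ d := by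
          rw [← nsmul_eq_mul, ← Finset.sum_const]
          refine Finset.sum_congr rfl fun p hp => ?_
          unfold Ir at hp
          rw [Finset.mem_filter] at hp
          rw [(mem_Mn.1 hp.1).2]
        have e2 : ((Ir F d).card : ℝ) ≤ q ^ d := by
          have h := hI F d hd1
          rw [← hq] at h
          have h' : (1 : ℝ) ≤ d := by exact_mod_cast hd1
          have h'' : (0 : ℝ) ≤ ((Ir F d).card : ℝ) := Nat.cast_nonneg _
          nlinarith
        rw [e1]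
        calc ((Ir F d).card : ℝ) * (b⁻¹) ^ d ≤ q ^ d * (b⁻¹) ^ d :=
              mul_le_mul_of_nonneg_right e2 (by positivity)
          _ = b ^ d := by
            rw [← mul_pow, ← hb2, pow_two, mul_assoc, mul_inv_cancel₀ hbpos.ne', mul_one]
      · intro d _ d' _ hdd
        rw [Function.onFun, Finset.disjoint_left]
        intro p hp hp'
        unfold Ir at hp hp'
        rw [Finset.mem_filter] at hp hp'
        exact hdd ((mem_Mn.1 hp.1).2.symm.trans (mem_Mn.1 hp'.1).2)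
    have h3 := geom b hb1 m
    have h4 : ∑ p ∈ S, (b⁻¹) ^ p.natDegree ≤ 7 / 2 * √(n : ℝ) := by linarith
    linarith
  -- the count
  have hcount : (T.card : ℝ) ≤ ∑ P ∈ Q, qr F ^ (31 * (n : ℝ) / 32) * (b⁻¹) ^ P.natDegree := by
    rw [Finset.card_eq_sum_card_image s T, ← hQ, Nat.cast_sum]
    refine Finset.sum_le_sum fun P hP => ?_
    obtain ⟨h1, h2, h3, h4⟩ := hQm P hP
    have h5 : ((T.filter fun f => s f = P).card : ℝ) ≤ q ^ (n - P.natDegree) := by
      have := card_dvd (n := n) h1 (T.filter fun f => s f = P) (by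
        intro f hf
        rw [Finset.mem_filter] at hf
        obtain ⟨hf1, rfl⟩ := hf
        exact ⟨(hTm f hf1).1, hs2 f hf1⟩)
      rw [hq]
      exact_mod_cast this
    refine h5.trans ?_
    rw [← hq]
    have e1 : (b⁻¹) ^ P.natDegree = q ^ (-(P.natDegree : ℝ) / 2) := by
      rw [hb, Real.sqrt_eq_rpow, ← Real.rpow_neg_one, ← Real.rpow_mul hq0.le,
        ← Real.rpow_natCast, ← Real.rpow_mul hq0.le]
      congr 1
      ring
    rw [e1, ← Real.rpow_add hq0, ← Real.rpow_natCast, Nat.cast_sub h4]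
    exact Real.rpow_le_rpow_of_exponent_le (by linarith) (by linarith)
  rw [← hT]
  calc (T.card : ℝ) ≤ _ := hcount
    _ = qr F ^ (31 * (n : ℝ) / 32) * ∑ P ∈ Q, (b⁻¹) ^ P.natDegree := by rw [Finset.mul_sum]
    _ ≤ qr F ^ (31 * (n : ℝ) / 32) * Real.exp (14 * √(n : ℝ)) := by
        refine mul_le_mul_of_nonneg_left (hEu.trans hprod) ?_
        rw [← hq]; positivity

end Pool.Agent.Helper41.UB
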